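import Pool.Agent.H82.NET.Stmts

/-!
Row REG of the board `net`
-/

set_option autoImplicit false

namespace Pool.NET

theorem reg_thm : REG_S := by
  have h5 : ∀ M : Set Nd, ∀ v ∈ M, (2 * v.1 + 1, 4 * v.2 + 2) ∈ Rf M := by
    intro M v hv
    refine Or.inr ⟨?_, ?_⟩
    · show (2 * v.1 + 1) % 2 = 1
      omega
    · show ((2 * v.1 + 1) / 2, (4 * v.2 + 2) / 4) ∈ M
      have e1 : (2 * v.1 + 1) / 2 = v.1 := by omega
      have e2 : (4 * v.2 + 2) / 4 = v.2 := by omega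
      rw [e1, e2]
      exact hv
  refine ⟨?_, ?_, ?_, ?_, h5, ?_⟩
  · intro M hM
    refine Set.Finite.subset (hM.biUnion fun g _ =>
      (Set.finite_Icc (2 * g.1) (2 * g.1 + 1)).prod (Set.finite_Icc (4 * g.2 - 1) (4 * g.2 + 3))) ?_
    rintro ⟨a, b⟩ hv
    rw [Set.mem_iUnion₂]
    rcases hv with ⟨h1, h2, h3⟩ | ⟨h1, h3⟩
    · refine ⟨_, h3, ?_⟩
      simp only [Set.mem_prod, Set.mem_Icc] at h1 h2 ⊢
      omega
    · refine ⟨_, h3, ?_⟩
      simp only [Set.mem_prod, Set.mem_Icc] at h1 ⊢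
      omega
  · rintro M ⟨v, hv⟩
    exact ⟨_, h5 M v hv⟩
  · rintro M ⟨a, b⟩ hu
    unfold uu at hu
    simp only at hu
    show ((a % 2 = 0 ∧ b % 4 ≠ 2 ∧ (a / 2, (b + 1) / 4) ∈ M) ∨ (a % 2 = 1 ∧ (a / 2, b / 4) ∈ M)) ↔
      ((a % 2 = 0 ∧ (b + 1) % 4 ≠ 2 ∧ (a / 2, (b + 1 + 1) / 4) ∈ M) ∨
        (a % 2 = 1 ∧ (a / 2, (b + 1) / 4) ∈ M))
    rcases hu with ⟨h1, h2⟩ | ⟨h1, h2⟩
    · have e1 : (b + 1) / 4 = (b + 1 + 1) / 4 := by omega
      have e2 : ¬ a % 2 = 1 := by omega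
      have e3 : b % 4 ≠ 2 := by omega
      have e4 : (b + 1) % 4 ≠ 2 := by omega
      rw [← e1]
      tauto
    · have e1 : b / 4 = (b + 1) / 4 := by omega
      have e2 : ¬ a % 2 = 0 := by omega
      rw [← e1]
      tauto
  · intro M M' hd
    rw [Set.disjoint_left] at hd ⊢
    rintro ⟨a, b⟩ hv hv'
    rcases hv with ⟨h1, h2, h3⟩ | ⟨h1, h3⟩
    · rcases hv' with ⟨_, _, h3'⟩ | ⟨h1', _⟩
      · exact hd h3 h3'
      · simp only at h1 h1'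
        omega
    · rcases hv' with ⟨h1', _, _⟩ | ⟨_, h3'⟩
      · simp only at h1 h1'
        omega
      · exact hd h3 h3'
  · intro M v hv
    rcases hv with ⟨h1, h2, h3⟩ | ⟨h1, h3⟩
    · simp only at h2
      omega
    · simp only at h1
      omega

end Pool.NET
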